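import Mathlib
import Pool.Agent.Q287.NC.Fin

set_option autoImplicit false

/-!
# Colouring almost all vertices, and graphs of order below `exp (Δ ^ κ)`

From fractional colourings to colourings: classes are chosen one after the other, each in one part
of a balanced partition of the vertices that are left, so that a class meets every neighbourhood
in few vertices; an exponential potential controls all degrees.
-/

namespace Pool.Agent.Results.MP_349e33_co.ColouringAlmostAllVertices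

open scoped Classical

/-- `w` is a fractional colouring of `G`: nonnegative weights on the independent sets such that
every vertex is covered with total weight at least one. -/
def IsFracColouring {V : Type} [Fintype V] (G : SimpleGraph V) (w : Finset V → ℝ) : Prop :=
  (∀ I, 0 ≤ w I) ∧ (∀ I, w I ≠ 0 → G.IsIndepSet (I : Set V)) ∧
    ∀ v : V, 1 ≤ ∑ I : Finset V, if v ∈ I then w I else 0

/-- `Δ / log Δ` -/
noncomputable def scale (Δ : ℕ) : ℝ := (Δ : ℝ) / Real.log (Δ : ℝ)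

/-- For every `ε > 0` and all large `Δ`, every `F`-free graph of maximum degree at most `Δ` has a
fractional colouring of total weight at most `(c + ε) Δ / log Δ`. -/
def FracBound {k : ℕ} (F : SimpleGraph (Fin k)) (c : ℝ) : Prop :=
  ∀ ε : ℝ, 0 < ε → ∃ Δ₀ : ℕ, ∀ Δ : ℕ, Δ₀ ≤ Δ → ∀ (V : Type) [Fintype V]
    (G : SimpleGraph V) [DecidableRel G.Adj], F.Free G → G.maxDegree ≤ Δ →
    ∃ w : Finset V → ℝ, IsFracColouring G w ∧ ∑ I, w I ≤ (c + ε) * scale Δ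

/-- For all `0 < κ < 1`, `ε > 0` and large `Δ`: every `F`-free graph of maximum degree at most `Δ`
with nonnegative weights of the vertices becomes `(c / (1 - κ) + ε) Δ / log Δ`-colourable if some
set `R` of vertices is deleted whose weight is at most `exp (- Δ ^ κ)` times the total weight. -/
def AlmostAllBound {k : ℕ} (F : SimpleGraph (Fin k)) (c : ℝ) : Prop :=
  ∀ κ : ℝ, 0 < κ → κ < 1 → ∀ ε : ℝ, 0 < ε → ∃ Δ₀ : ℕ, ∀ Δ : ℕ, Δ₀ ≤ Δ →
    ∀ (V : Type) [Fintype V] (G : SimpleGraph V) [DecidableRel G.Adj],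
    F.Free G → G.maxDegree ≤ Δ → ∀ ρ : V → ℝ, (∀ v, 0 ≤ ρ v) → ∃ R : Finset V,
      ∑ v ∈ R, ρ v ≤ Real.exp (-((Δ : ℝ) ^ κ)) * ∑ v, ρ v ∧
      (G.induce ((R : Set V)ᶜ)).Colorable ⌊(c / (1 - κ) + ε) * scale Δ⌋₊

/-- For all `0 < κ < 1`, `ε > 0` and large `Δ`: every `F`-free graph of maximum degree at most `Δ`
with fewer than `exp (Δ ^ κ)` vertices is `(c / (1 - κ) + ε) Δ / log Δ`-colourable. -/
def SmallOrderBound {k : ℕ} (F : SimpleGraph (Fin k)) (c : ℝ) : Prop :=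
  ∀ κ : ℝ, 0 < κ → κ < 1 → ∀ ε : ℝ, 0 < ε → ∃ Δ₀ : ℕ, ∀ Δ : ℕ, Δ₀ ≤ Δ →
    ∀ (V : Type) [Fintype V] (G : SimpleGraph V) [DecidableRel G.Adj],
    F.Free G → G.maxDegree ≤ Δ → (Fintype.card V : ℝ) < Real.exp ((Δ : ℝ) ^ κ) →
      G.Colorable ⌊(c / (1 - κ) + ε) * scale Δ⌋₊

/-- For all `0 < κ < 1`, `ε > 0` and large `Δ`: every `F`-free graph of maximum degree at most `Δ`
becomes `(c / (1 - κ) + ε) Δ / log Δ`-colourable if some set of at most `exp (- Δ ^ κ) |V|`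
vertices is deleted. -/
def FewDeletedBound {k : ℕ} (F : SimpleGraph (Fin k)) (c : ℝ) : Prop :=
  ∀ κ : ℝ, 0 < κ → κ < 1 → ∀ ε : ℝ, 0 < ε → ∃ Δ₀ : ℕ, ∀ Δ : ℕ, Δ₀ ≤ Δ →
    ∀ (V : Type) [Fintype V] (G : SimpleGraph V) [DecidableRel G.Adj],
    F.Free G → G.maxDegree ≤ Δ → ∃ R : Finset V,
      (R.card : ℝ) ≤ Real.exp (-((Δ : ℝ) ^ κ)) * Fintype.card V ∧
      (G.induce ((R : Set V)ᶜ)).Colorable ⌊(c / (1 - κ) + ε) * scale Δ⌋₊

theorem colorable_induce {V : Type} (G : SimpleGraph V) (R : Finset V) (m : ℕ) (f : V → ℕ)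
    (h1 : ∀ v, v ∉ R → f v < m)
    (h2 : ∀ v, v ∉ R → ∀ w, w ∉ R → G.Adj v w → f v ≠ f w) :
    (G.induce ((R : Set V)ᶜ)).Colorable m := by
  have hR : ∀ v : ((R : Set V)ᶜ : Set V), (v : V) ∉ R := fun v h => v.2 (Finset.mem_coe.2 h)
  refine ⟨SimpleGraph.Coloring.mk (fun v => ⟨f v.1, h1 v.1 (hR v)⟩) ?_⟩
  intro v w hvw hf
  exact h2 v.1 (hR v) w.1 (hR w) hvw (by simpa using congrArg Fin.val hf)

theorem almostAll {k : ℕ} (F : SimpleGraph (Fin k)) (c : ℝ) (hc : 0 < c) (h : FracBound F c) :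
    AlmostAllBound F c := by
  intro κ hκ0 hκ1 ε hε
  obtain ⟨Δ₀, _, hΔ₀⟩ := Pool.Agent.Q287.NC.core F c hc h κ hκ0 hκ1 ε hε
  refine ⟨Δ₀, ?_⟩
  intro Δ hΔ V _ G _ hG hdeg ρ hρ
  obtain ⟨R, f, h1, h2, h3⟩ := hΔ₀ Δ hΔ V G hG hdeg ρ hρ
  exact ⟨R, h3, colorable_induce G R _ f h1 h2⟩

theorem smallOrder {k : ℕ} (F : SimpleGraph (Fin k)) (c : ℝ) (hc : 0 < c) (h : FracBound F c) :
    SmallOrderBound F c := by
  intro κ hκ0 hκ1 ε hε
  obtain ⟨Δ₀, _, hΔ₀⟩ := Pool.Agent.Q287.NC.core F c hc h κ hκ0 hκ1 ε hε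
  refine ⟨Δ₀, ?_⟩
  intro Δ hΔ V _ G _ hG hdeg hV
  obtain ⟨R, f, h1, h2, h3⟩ := hΔ₀ Δ hΔ V G hG hdeg (fun _ => 1) (fun _ => zero_le_one)
  have hR : (R.card : ℝ) < 1 := by
    have e1 : ∑ v ∈ R, (1:ℝ) = R.card := by simp
    have e2 : ∑ v : V, (1:ℝ) = Fintype.card V := by simp
    rw [e1, e2] at h3
    have h4 : Real.exp (-((Δ : ℝ) ^ κ)) * Fintype.card V <
        Real.exp (-((Δ : ℝ) ^ κ)) * Real.exp ((Δ : ℝ) ^ κ) :=
      mul_lt_mul_of_pos_left hV (Real.exp_pos _)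
    rw [← Real.exp_add, neg_add_cancel, Real.exp_zero] at h4
    linarith
  have hR0 : R = ∅ := by
    have : R.card < 1 := by exact_mod_cast hR
    exact Finset.card_eq_zero.1 (by omega)
  subst hR0
  refine ⟨SimpleGraph.Coloring.mk (fun v => ⟨f v, h1 v (Finset.notMem_empty v)⟩) ?_⟩
  intro v w hvw hf
  exact h2 v (Finset.notMem_empty v) w (Finset.notMem_empty w) hvw
    (by simpa using congrArg Fin.val hf)

theorem fewDeleted {k : ℕ} (F : SimpleGraph (Fin k)) (c : ℝ) (hc : 0 < c) (h : FracBound F c) :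
    FewDeletedBound F c := by
  intro κ hκ0 hκ1 ε hε
  obtain ⟨Δ₀, hΔ₀⟩ := almostAll F c hc h κ hκ0 hκ1 ε hε
  refine ⟨Δ₀, ?_⟩
  intro Δ hΔ V _ G _ hG hdeg
  obtain ⟨R, h1, h2⟩ := hΔ₀ Δ hΔ V G hG hdeg (fun _ => 1) (fun _ => zero_le_one)
  refine ⟨R, ?_, h2⟩
  have e1 : ∑ v ∈ R, (1:ℝ) = R.card := by simp
  have e2 : ∑ v : V, (1:ℝ) = Fintype.card V := by simp
  rwa [e1, e2] at h1

theorem fracThree {k : ℕ} (F : SimpleGraph (Fin k)) (hF : F.Colorable 3) : FracBound F 1 := by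
  intro ε hε
  set δ : ℝ := ε / (1 + ε) with hδ
  have hδ0 : 0 < δ := by positivity
  have hδ1 : 1 - δ = 1 / (1 + ε) := by
    rw [hδ]
    field_simp
    ring
  obtain ⟨Δ₁, hΔ₁2, hΔ₁⟩ := Pool.Agent.Q179.CF.allweights k δ hδ0
  obtain ⟨Δ₀, hΔ₀⟩ := exists_nat_ge Δ₁
  refine ⟨Δ₀, ?_⟩
  intro Δ hΔ V _ G _ hG hdeg
  have hΔR : Δ₁ ≤ (Δ:ℝ) := hΔ₀.trans (by exact_mod_cast hΔ)
  have hΔ2 : (2:ℝ) ≤ Δ := hΔ₁2.trans hΔR
  have hlog : 0 < Real.log (Δ:ℝ) := Real.log_pos (by linarith)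
  have hfree : Pool.Agent.Q179.CF.Free3 G (k + 1) :=
    Pool.Agent.Q287.NC.free3_of_free F hF G hG (k + 1) (Nat.le_succ k)
  have hγ : 0 < (1 - δ) * (Real.log (Δ:ℝ) / Δ) := by
    rw [hδ1]
    positivity
  obtain ⟨w, hw, hw2⟩ := Pool.Agent.Q287.NC.exists_frac G hγ
    (fun ρ hρ => hΔ₁ Δ hΔR V G hfree (Pool.Agent.Q287.NC.dg_le G Δ hdeg) ρ hρ)
  refine ⟨w, hw, ?_⟩
  rw [hw2, hδ1, scale]
  apply le_of_eq
  field_simp

/-- (1) For every `F` and `c > 0` the fractional bound with constant `c` is equivalent to the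
bound for almost all vertices. (2) It implies the bound for the chromatic number of all `F`-free
graphs with fewer than `exp (Δ ^ κ)` vertices. (3) For 3-colourable `F` these bounds hold
with `c = 1`. -/
theorem result :
    (∀ (k : ℕ) (F : SimpleGraph (Fin k)) (c : ℝ), 0 < c → (FracBound F c ↔ AlmostAllBound F c)) ∧
    (∀ (k : ℕ) (F : SimpleGraph (Fin k)) (c : ℝ), 0 < c → FracBound F c → SmallOrderBound F c) ∧
    (∀ (k : ℕ) (F : SimpleGraph (Fin k)), F.Colorable 3 →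
      FewDeletedBound F 1 ∧ SmallOrderBound F 1) := by
  refine ⟨?_, ?_, ?_⟩
  · intro k F c hc
    refine ⟨almostAll F c hc, fun h => ?_⟩
    intro ε hε
    exact Pool.Agent.Q287.NC.back F c hc h ε hε
  · intro k F c hc h
    exact smallOrder F c hc h
  · intro k F hF
    exact ⟨fewDeleted F 1 one_pos (fracThree F hF), smallOrder F 1 one_pos (fracThree F hF)⟩

end Pool.Agent.Results.MP_349e33_co.ColouringAlmostAllVertices
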