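import Mathlib
import Pool.Agent.Q220.CE.LogScale

set_option autoImplicit false

/-!
# MP_349e33_co: the uniform bound for the chromatic number is a statement about numbers of colourings

For every `c > 0`: all graphs `F` have `c(F) ≤ c` if and only if for every `F` all `F`-free graphs
`G` of maximum degree `Δ` have at least `(1 - 1/q)^m q^((1/(2c) - o(1)) n)` proper `q`-colourings for
all `q ≥ (c + o(1)) Δ / log Δ`, where `n` and `m` are the numbers of vertices and edges.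
-/

namespace Pool.Agent.Results.MP_349e33_co.CountingEquivalence

/-- `c(F) ≤ c` for every graph `F`; Q1 is `∃ c > 0, ChromaticBound c`. -/
def ChromaticBound (c : ℝ) : Prop :=
  ∀ (k : ℕ) (F : SimpleGraph (Fin k)), ∀ ε : ℝ, 0 < ε →
    ∃ Δ₀ : ℕ, ∀ Δ : ℕ, Δ₀ ≤ Δ →
      ∀ (V : Type) [Fintype V] (G : SimpleGraph V) [DecidableRel G.Adj],
        F.Free G → G.maxDegree = Δ →
          ∃ n : ℕ, G.Colorable n ∧ (n : ℝ) ≤ (c + ε) * ((Δ : ℝ) / Real.log (Δ : ℝ))

/-- For every `F`, `F`-free graphs of maximum degree `Δ` have at least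
`(1 - 1/q)^m q^((1/(2c) - o(1)) n)` proper `q`-colourings for `q ≥ (c + o(1)) Δ / log Δ`. -/
def CountingBound (c : ℝ) : Prop :=
  ∀ (k : ℕ) (F : SimpleGraph (Fin k)), ∀ ε : ℝ, 0 < ε →
    ∃ Δ₀ : ℕ, ∀ Δ : ℕ, Δ₀ ≤ Δ →
      ∀ (V : Type) [Fintype V] (G : SimpleGraph V) [DecidableRel G.Adj],
        F.Free G → G.maxDegree = Δ →
          ∀ q : ℕ, (c + ε) * ((Δ : ℝ) / Real.log Δ) ≤ q →
            (1 - 1 / (q : ℝ)) ^ G.edgeFinset.card *
              (q : ℝ) ^ ((1 / (2 * c) - ε) * (Fintype.card V : ℝ)) ≤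
                (Nat.card (G.Coloring (Fin q)) : ℝ)

theorem result : ∀ c : ℝ, 0 < c → (ChromaticBound c ↔ CountingBound c) := by
  intro c hc
  constructor
  · intro h k F ε hε
    have hcol : ∀ δ : ℝ, 0 < δ → ∃ D0 : ℕ, ∀ D : ℕ, D0 ≤ D → ∀ (V : Type) [Fintype V]
        (G : SimpleGraph V), G.CliqueFree (max k 3) → (∀ v, (G.neighborSet v).ncard ≤ D) →
          ∀ q : ℕ, (c + δ) * ((D : ℝ) / Real.log D) ≤ q → G.Colorable q := by
      intro δ hδ
      refine Pool.Agent.Q220.CE.col_le (by linarith) ?_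
      obtain ⟨Δ₀, h0⟩ := h (max k 3) ⊤ δ hδ
      refine ⟨Δ₀, ?_⟩
      intro Δ hΔ V _ G _ hG hmax q hq
      have hfree : (⊤ : SimpleGraph (Fin (max k 3))).Free G := by
        have h1 := (SimpleGraph.cliqueFree_iff_top_free (β := Fin (max k 3)) (G := G)).1
        rw [Fintype.card_fin] at h1
        exact h1 hG
      obtain ⟨n, hn, hn'⟩ := h0 Δ hΔ V G hfree hmax
      exact hn.mono (by exact_mod_cast hn'.trans hq)
    obtain ⟨Δ₀, h0⟩ := Pool.Agent.Q220.CE.count_of_col (m := max k 3) (le_max_right _ _) hc hε hcol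
    refine ⟨Δ₀, ?_⟩
    intro Δ hΔ V _ G _ hF hmax q hq
    refine h0 Δ hΔ V G ?_ hmax.le q hq
    -- `F`-free graphs are `K_k`-free
    refine SimpleGraph.CliqueFree.mono (le_max_left k 3) ?_
    have h1 := (SimpleGraph.cliqueFree_iff_top_free (β := Fin k) (G := G)).2
    rw [Fintype.card_fin] at h1
    apply h1
    intro hcon
    exact hF (SimpleGraph.IsContained.mono_left le_top hcon)
  · intro h k F ε hε
    obtain ⟨Δ₀, h0⟩ := h k F (ε / 2) (by linarith)
    obtain ⟨D, hD3, hD⟩ := Pool.Agent.Q220.CE.g_large (show 0 < c + ε / 2 by linarith) 1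
    obtain ⟨D', -, hD'⟩ := Pool.Agent.Q220.CE.g_large (show 0 < ε / 2 by linarith) 1
    refine ⟨max Δ₀ (max D D'), ?_⟩
    intro Δ hΔ V _ G _ hF hmax
    have h1 := hD Δ (by omega)
    have h1' := hD' Δ (by omega)
    have h2 : (0 : ℝ) ≤ (c + ε / 2) * ((Δ : ℝ) / Real.log Δ) := by linarith
    refine ⟨⌈(c + ε / 2) * ((Δ : ℝ) / Real.log Δ)⌉₊, ?_, ?_⟩
    · refine Pool.Agent.Q220.CE.col_of_count G ?_ (h0 Δ (by omega) V G hF hmax _ (Nat.le_ceil _))
      have h3 : (1 : ℝ) < (⌈(c + ε / 2) * ((Δ : ℝ) / Real.log Δ)⌉₊ : ℝ) :=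
        h1.trans_le (Nat.le_ceil _)
      exact_mod_cast h3
    · have h3 := (Nat.ceil_lt_add_one h2).le
      linarith

end Pool.Agent.Results.MP_349e33_co.CountingEquivalence
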