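import Mathlib
import Pool.Agent.Q179.CF.All
import Pool.Agent.H167R2.FKMinimax

set_option autoImplicit false

/-!
# The fractional version of the uniform bound, for all forbidden graphs of chromatic number
at most three
-/

namespace Pool.Agent.Results.MP_349e33_co.FractionalThreeColourable

open Pool.Agent.Q179.CF
open scoped Classical

/-- `w` is a fractional colouring of `G`: nonnegative weights on the independent sets such that
every vertex is covered with total weight at least one. -/
def IsFracColouring {V : Type} [Fintype V] (G : SimpleGraph V) (w : Finset V → ℝ) : Prop :=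
  (∀ I, 0 ≤ w I) ∧ (∀ I, w I ≠ 0 → G.IsIndepSet (I : Set V)) ∧
    ∀ v : V, 1 ≤ ∑ I : Finset V, if v ∈ I then w I else 0

/-- The fractional chromatic number. -/
noncomputable def chiF {V : Type} [Fintype V] (G : SimpleGraph V) : ℝ :=
  sInf {t | ∃ w : Finset V → ℝ, IsFracColouring G w ∧ t = ∑ I, w I}

/-- an `F`-free graph has no `K_{t,t,t}` if `F` is three-colourable with at most `t` vertices -/
theorem free3_of_free {k : ℕ} (F : SimpleGraph (Fin k)) (hF : F.Colorable 3) {V : Type}
    (G : SimpleGraph V) (hG : F.Free G) (t : ℕ) (hkt : k ≤ t) : Free3 G t := by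
  rintro ⟨a, b, c, ha, hb, hc, hab, hac, hbc⟩
  apply hG
  obtain ⟨C⟩ := hF
  set f : Fin 3 → Fin t → V := ![a, b, c] with hf
  have hinj : ∀ i, Function.Injective (f i) := by
    intro i
    fin_cases i
    · exact ha
    · exact hb
    · exact hc
  have hadj : ∀ i j, i ≠ j → ∀ x y, G.Adj (f i x) (f j y) := by
    intro i j hij x y
    fin_cases i <;> fin_cases j
    · exact absurd rfl hij
    · exact hab x y
    · exact hac x y
    · exact (hab y x).symm
    · exact absurd rfl hij
    · exact hbc x y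
    · exact (hac y x).symm
    · exact (hbc y x).symm
    · exact absurd rfl hij
  refine ⟨⟨⟨fun v => f (C v) (Fin.castLE hkt v), ?_⟩, ?_⟩⟩
  · intro u v huv
    exact hadj _ _ (C.valid huv) _ _
  · intro u v huv
    by_cases h : C u = C v
    · have h1 : f (C u) (Fin.castLE hkt u) = f (C v) (Fin.castLE hkt v) := huv
      rw [← h] at h1
      exact Fin.castLE_injective hkt (hinj _ h1)
    · exact absurd huv (hadj _ _ h _ _).ne

/-- linear programming duality -/
theorem exists_frac {V : Type} [Fintype V] (G : SimpleGraph V) {γ : ℝ} (hγ : 0 < γ)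
    (h : ∀ ρ : V → ℝ, (∀ x, 0 ≤ ρ x) → ∃ I, Ind G I ∧ γ * Wt ρ Finset.univ ≤ Wt ρ I) :
    ∃ w : Finset V → ℝ, IsFracColouring G w ∧ ∑ I, w I = 1 / γ := by
  set n := Fintype.card V with hn
  have eq : V ≃ Fin n := Fintype.equivFin V
  set ind : Finset V → (Fin n → ℝ) := fun I j => if eq.symm j ∈ I then -1 else 0 with hind
  have hindinj : Function.Injective ind := by
    intro I J hIJ
    ext v
    have := congrFun hIJ (eq v)
    simp only [hind, Equiv.symm_apply_apply] at this
    by_cases h1 : v ∈ I <;> by_cases h2 : v ∈ J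
    · simp [h1, h2]
    · rw [if_pos h1, if_neg h2] at this; norm_num at this
    · rw [if_neg h1, if_pos h2] at this; norm_num at this
    · simp [h1, h2]
  set Is : Finset (Finset V) := Finset.univ.filter (fun I => Ind G I) with hIs
  obtain ⟨w, hw0, hw1, hw2⟩ := H167FK.minimax (Is.image ind) (-γ) (by
    intro p hp
    obtain ⟨I, hI, hI2⟩ := h (fun v => p (eq v)) (fun v => hp _)
    refine ⟨ind I, Finset.mem_image_of_mem _ (Finset.mem_filter.2 ⟨Finset.mem_univ _, hI⟩), ?_⟩
    have e1 : ∑ j, p j * ind I j = - Wt (fun v => p (eq v)) I := by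
      rw [← eq.sum_comp]
      simp only [hind, Equiv.symm_apply_apply, mul_ite, mul_neg, mul_one, mul_zero]
      unfold Wt
      rw [Finset.sum_ite_mem, Finset.univ_inter, Finset.sum_neg_distrib]
    have e2 : ∑ j, p j = Wt (fun v => p (eq v)) Finset.univ := by
      unfold Wt
      rw [eq.sum_comp]
    rw [e1, e2]
    linarith)
  rw [Finset.sum_image (fun a _ b _ hab => hindinj hab)] at hw1
  refine ⟨fun I => if Ind G I then w (ind I) / γ else 0, ⟨?_, ?_, ?_⟩, ?_⟩
  · intro I
    dsimp only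
    split_ifs with hI
    · exact div_nonneg (hw0 _ (Finset.mem_image_of_mem _
        (Finset.mem_filter.2 ⟨Finset.mem_univ _, hI⟩))) hγ.le
    · exact le_rfl
  · intro I hI
    dsimp only at hI
    split_ifs at hI with hI2
    · intro x hx y hy _
      exact hI2 x hx y hy
    · exact absurd rfl hI
  · intro v
    have h1 := hw2 (eq v)
    rw [Finset.sum_image (fun a _ b _ hab => hindinj hab)] at h1
    have e1 : ∑ I ∈ Is, w (ind I) * ind I (eq v) =
        -(γ * ∑ I : Finset V, if v ∈ I then (if Ind G I then w (ind I) / γ else 0) else 0) := by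
      rw [hIs, Finset.sum_filter, Finset.mul_sum, ← Finset.sum_neg_distrib]
      apply Finset.sum_congr rfl
      intro I _
      simp only [hind, Equiv.symm_apply_apply]
      by_cases a1 : Ind G I <;> by_cases a2 : v ∈ I
      · rw [if_pos a1, if_pos a2, if_pos a2, if_pos a1]
        field_simp
      · rw [if_pos a1, if_neg a2, if_neg a2]
        simp
      · rw [if_neg a1, if_pos a2, if_neg a1]
        simp
      · rw [if_neg a1, if_neg a2]
        simp
    rw [e1] at h1
    have h2 : γ * 1 ≤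
        γ * ∑ I : Finset V, if v ∈ I then (if Ind G I then w (ind I) / γ else 0) else 0 := by
      linarith
    exact le_of_mul_le_mul_left h2 hγ
  · rw [← Finset.sum_filter, ← Finset.sum_div, hw1]

theorem chiF_le {V : Type} [Fintype V] (G : SimpleGraph V) {w : Finset V → ℝ}
    (hw : IsFracColouring G w) : chiF G ≤ ∑ I, w I := by
  unfold chiF
  apply csInf_le
  · refine ⟨0, ?_⟩
    rintro _ ⟨w', hw', rfl⟩
    exact Finset.sum_nonneg fun I _ => hw'.1 I
  · exact ⟨w, hw, rfl⟩

/-- For every graph `F` of chromatic number at most three and every `ε > 0`, all `F`-free graphs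
of large maximum degree `Δ` have fractional chromatic number at most `(1 + ε) Δ / log Δ`. -/
theorem result (k : ℕ) (F : SimpleGraph (Fin k)) (hF : F.Colorable 3) (ε : ℝ) (hε : 0 < ε) :
    ∃ Δ₀ : ℕ, ∀ Δ : ℕ, Δ₀ ≤ Δ →
      ∀ (V : Type) [Fintype V] (G : SimpleGraph V) [DecidableRel G.Adj],
        F.Free G → G.maxDegree ≤ Δ →
          (∃ w : Finset V → ℝ, IsFracColouring G w ∧
            ∑ I, w I ≤ (1 + ε) * ((Δ : ℝ) / Real.log (Δ : ℝ))) ∧
          chiF G ≤ (1 + ε) * ((Δ : ℝ) / Real.log (Δ : ℝ)) := by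
  set δ : ℝ := ε / (1 + ε) with hδ
  have hδ0 : 0 < δ := by positivity
  have hδ1 : 1 - δ = 1 / (1 + ε) := by
    rw [hδ]
    field_simp
    ring
  obtain ⟨Δ₁, hΔ₁2, hΔ₁⟩ := allweights k δ hδ0
  obtain ⟨Δ₀, hΔ₀⟩ := exists_nat_ge Δ₁
  refine ⟨Δ₀, ?_⟩
  intro Δ hΔ V _ G _ hG hdeg
  have hΔR : Δ₁ ≤ (Δ:ℝ) := hΔ₀.trans (by exact_mod_cast hΔ)
  have hΔ2 : (2:ℝ) ≤ Δ := hΔ₁2.trans hΔR
  have hlog : 0 < Real.log (Δ:ℝ) := Real.log_pos (by linarith)
  have hfree : Free3 G (k + 1) := free3_of_free F hF G hG (k + 1) (Nat.le_succ k)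
  have hd : ∀ x, dg G Finset.univ x ≤ (Δ:ℝ) := by
    intro x
    have h1 : (nb G Finset.univ x).card = G.degree x := by
      unfold nb
      rw [← SimpleGraph.card_neighborFinset_eq_degree]
      congr 1
      ext y
      simp
    rw [← card_nb, h1]
    exact_mod_cast (G.degree_le_maxDegree x).trans hdeg
  have hγ : 0 < (1 - δ) * (Real.log (Δ:ℝ) / Δ) := by
    rw [hδ1]
    positivity
  obtain ⟨w, hw, hw2⟩ := exists_frac G hγ (fun ρ hρ => hΔ₁ Δ hΔR V G hfree hd ρ hρ)
  have hval : 1 / ((1 - δ) * (Real.log (Δ:ℝ) / Δ)) = (1 + ε) * ((Δ:ℝ) / Real.log (Δ:ℝ)) := by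
    rw [hδ1]
    field_simp
  have hle : ∑ I, w I ≤ (1 + ε) * ((Δ : ℝ) / Real.log (Δ : ℝ)) := by
    rw [hw2, hval]
  exact ⟨⟨w, hw, hle⟩, (chiF_le G hw).trans hle⟩

end Pool.Agent.Results.MP_349e33_co.FractionalThreeColourable
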