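import Mathlib
import Pool.Agent.Q220.CN.Asy

set_option autoImplicit false

/-!
# MP_349e33_co: the sharp number of `q`-colourings of `F`-free graphs, `F` almost bipartite

Let `F` be bipartite, or bipartite after the deletion of one vertex (a subgraph of some `K_{1,t,t}`).
Then `F`-free graphs `G` of maximum degree `Δ`, with `n` vertices and `m` edges, have at least
`(1 - 1/q)^m ((1 - o(1)) q)^n` proper `q`-colourings for all `q ≥ (1 + o(1)) Δ / log Δ`.  This is the
number of colourings of random `Δ`-regular graphs up to a factor `(1 + o(1))^n`.  For triangle-free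
graphs it is the theorem of Bernshteyn, Brazelton, Cao and Kang.  The local form, Part 1, allows
degrees up to `(2 - ε) q log q` if the high degrees are not next to each other.

**Proof.**  Let `v` be a new vertex with `d` coloured neighbours, `T = d / q`.  Flipping colours in
the neighbourhood `N` of `v` relates the numbers of the colourings of `G[S]` and of `G[S ∪ v]` by the
averages of the independence polynomial `Z` of `N` and of its derivative `M`, with small weights
`1 / (list size - 1)`.  As `N` contains no `K_{t,t+1}`, the weighted number of edges of `N` is small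
against every fixed number if the total weight is at most `1 + T`, and the inequality
`(1 + T - o(1)) Z ≤ exp T + M` follows from the convexity of `z log z`; for larger total weights it
follows by scaling.  So the new vertex multiplies the number of colourings by
`(1 - o(1)) q exp (- d / q)`, and the product over all vertices is
`((1 - o(1)) q)^n exp (- m / q)`.
-/

namespace Pool.Agent.Results.MP_349e33_co.SharpCountAlmostBipartite

/-- `F` is almost bipartite: it is bipartite, or it becomes bipartite on deleting one vertex. -/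
def NearBipartite {W : Type} (F : SimpleGraph W) : Prop :=
  F.Colorable 2 ∨ ∃ x, (F.induce {y | y ≠ x}).Colorable 2

/-- `G`, with `n` vertices and `m` edges, has at least `(1 - 1/q)^m ((1 - η) q)^n` proper colourings
with `q` colours. -/
def Bound {V : Type} [Fintype V] (G : SimpleGraph V) [DecidableRel G.Adj] (q : ℕ) (η : ℝ) : Prop :=
  (1 - 1 / (q : ℝ)) ^ G.edgeFinset.card * ((1 - η) * q) ^ Fintype.card V ≤
    (Nat.card (G.Coloring (Fin q)) : ℝ)

/-- **The sharp number of colourings of `F`-free graphs, for almost bipartite `F`.** -/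
theorem result {W : Type} [Fintype W] (F : SimpleGraph W) (hF : NearBipartite F) (ε η : ℝ)
    (hε : 0 < ε) (hη : 0 < η) (hη' : η < 1) :
    (∃ q₀ : ℕ, ∀ q : ℕ, q₀ ≤ q →
      ∀ (V : Type) [Fintype V] (G : SimpleGraph V) [DecidableRel G.Adj], F.Free G →
        (∀ v, ∑ u ∈ G.neighborFinset v, Real.exp (G.degree u / q) ≤ (q : ℝ) ^ (2 - ε)) →
          Bound G q η) ∧
    (∃ Δ₀ : ℕ, ∀ Δ : ℕ, Δ₀ ≤ Δ →
      ∀ (V : Type) [Fintype V] (G : SimpleGraph V) [DecidableRel G.Adj], F.Free G →
        (∀ v, G.degree v ≤ Δ) →
          ∀ q : ℕ, (1 + ε) * ((Δ : ℝ) / Real.log Δ) ≤ q → Bound G q η) := by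
  by_cases hW : 1 ≤ Fintype.card W
  · obtain ⟨q₀, h1⟩ := Pool.Agent.Q220.CN.asy (Fintype.card W) hW ε η hε hη hη'
    obtain ⟨Δ₀, h2⟩ := Pool.Agent.Q220.CN.maxdeg (Fintype.card W) hW ε η hε hη hη'
    refine ⟨⟨q₀, ?_⟩, ⟨Δ₀, ?_⟩⟩
    · intro q hq V _ G _ hfree hloc
      refine h1 q hq V G (Pool.Agent.Q220.CN.nb_of_free F hF V G hfree).2 (fun v => ?_)
      have hdg : ∀ u, Pool.Agent.Q220.CN.dg G u = G.degree u := by
        intro u
        rw [Pool.Agent.Q220.CN.dg, ← SimpleGraph.card_neighborFinset_eq_degree,
          SimpleGraph.neighborFinset_eq_filter]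
        congr 2
        ext w; simp
      have h3 := hloc v
      rw [SimpleGraph.neighborFinset_eq_filter] at h3
      simp only [hdg]
      convert h3
    · intro Δ hΔ V _ G _ hfree hdeg q hq
      exact h2 Δ hΔ V G (Pool.Agent.Q220.CN.nb_of_free F hF V G hfree).2 hdeg q hq
  · refine ⟨⟨0, ?_⟩, ⟨0, ?_⟩⟩
    · intro q hq V _ G _ hfree
      exact absurd (Pool.Agent.Q220.CN.nb_of_free F hF V G hfree).1 hW
    · intro Δ hΔ V _ G _ hfree
      exact absurd (Pool.Agent.Q220.CN.nb_of_free F hF V G hfree).1 hW

end Pool.Agent.Results.MP_349e33_co.SharpCountAlmostBipartite
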